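import Pool.Agent.H51.EM.Targets
import Pool.Agent.H90.EI.PARX

/-! The measure for pairs of real numbers. -/

set_option autoImplicit false

open Polynomial Finset

namespace Pool.Agent.H69.EM.PAIR

open Pool.Agent.H51.EM
open Pool.Agent.H51.EI (Disc toC ev plen rts vv ResP FR RP FTI phq thq KK KX OI IQ)
open Pool.Agent.H90.EI.PARX (trans)

/-- the rational numbers -/
noncomputable def KQ : Subfield ℂ := (algebraMap ℚ ℂ).fieldRange

private theorem finrank_KQ : Module.finrank ℚ KQ = 1 := by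
  refine finrank_eq_one (1 : KQ) one_ne_zero fun w => ?_
  obtain ⟨z, q, hq⟩ := w
  refine ⟨q, ?_⟩
  apply Subtype.ext
  rw [Algebra.smul_def, mul_one, eq_ratCast]
  exact (map_ratCast KQ.subtype q).trans ((eq_ratCast (algebraMap ℚ ℂ) q).symm.trans hq)

private theorem iq : IQ KQ := Or.inl finrank_KQ

private theorem lin0 (hMEAS : Pool.Agent.H51.EI.T_MEAS) {O : Subring ℂ} (hD : Disc O)
    (hR : RP O) (m n : ℤ) (hmn : m ≠ 0 ∨ n ≠ 0) : (m : ℂ) + n * Complex.exp 1 ≠ 0 := by
  have hP : (C (m : O) + C (n : O) * X : (↥O)[X]) ≠ 0 := by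
    intro h0
    have h1 := congrArg (fun P => P.coeff 0) h0
    have h2 := congrArg (fun P => P.coeff 1) h0
    simp only [coeff_add, coeff_C_mul, coeff_X_zero, coeff_X_one, coeff_C_zero, coeff_zero,
      mul_zero, add_zero, mul_one, coeff_C_succ, zero_add] at h1 h2
    have h3 := congrArg (fun z : O => (z : ℂ)) h1
    have h4 := congrArg (fun z : O => (z : ℂ)) h2
    simp only [Subring.coe_intCast, ZeroMemClass.coe_zero, Int.cast_eq_zero] at h3 h4
    rcases hmn with h | h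
    · exact h h3
    · exact h h4
  have h1 := trans (a := (1 : O)) (b := (1 : O)) hMEAS hD hR one_ne_zero one_ne_zero _ hP
  intro h0
  apply h1
  have e1 : ((1 : O) : ℂ) / ((1 : O) : ℂ) = 1 := by simp
  rw [e1]
  simp only [ev, toC, Polynomial.map_add, Polynomial.map_mul, map_C, map_X, eval_add, eval_mul,
    eval_C, eval_X, Subring.subtype_apply, Subring.coe_intCast]
  exact h0

private theorem lin1 (hMEAS : Pool.Agent.H51.EI.T_MEAS) {O : Subring ℂ} (hD : Disc O)
    (hR : RP O) {r : ℚ} (hr : r ≠ 0) {E : ℂ} (hE : E = r * Complex.exp 1) (m n : ℤ)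
    (hmn : m ≠ 0 ∨ n ≠ 0) : (m : ℂ) + n * E ≠ 0 := by
  intro h0
  have hd : ((r.den : ℤ) : ℂ) ≠ 0 := by exact_mod_cast r.den_nz
  have hnum : r.num ≠ 0 := Rat.num_ne_zero.2 hr
  have hrr : (r : ℂ) * r.den = r.num := by exact_mod_cast Rat.mul_den_eq_num r
  refine lin0 hMEAS hD hR (m * r.den) (n * r.num) ?_ ?_
  · rcases hmn with h | h
    · exact Or.inl (mul_ne_zero h (by exact_mod_cast r.den_nz))
    · exact Or.inr (mul_ne_zero h hnum)
  · push_cast
    rw [← hrr]
    rw [hE] at h0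
    linear_combination (r.den : ℂ) * h0

private theorem final (D : ℕ) (C1 K δ : ℝ) (hK : 0 < K) (hδ : 0 < δ) (hC1 : 0 ≤ C1) :
    ∃ C : ℝ, ∀ H : ℝ, 2 ≤ H → Real.exp (-(H ^ C)) ≤ δ ∧
      Real.exp (-(H ^ C)) ≤ Real.exp (-((H ^ D) ^ C1)) / K := by
  set B : ℝ := max (Real.log K) (max (-Real.log δ) 0) with hB
  have hB1 : Real.log K ≤ B := le_max_left _ _
  have hB2 : -Real.log δ ≤ B := (le_max_left _ _).trans (le_max_right _ _)
  have hB0 : 0 ≤ B := (le_max_right _ _).trans (le_max_right _ _)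
  obtain ⟨L, hL⟩ := pow_unbounded_of_one_lt (1 + B) (one_lt_two)
  refine ⟨D * C1 + L, fun H hH => ?_⟩
  have hH0 : 0 < H := by linarith
  have h1 : (H ^ D) ^ C1 = H ^ (D * C1) := by
    rw [← Real.rpow_natCast, ← Real.rpow_mul hH0.le]
  have h2 : 1 ≤ H ^ ((D : ℝ) * C1) := Real.one_le_rpow (by linarith) (by positivity)
  have h3 : 1 + B ≤ H ^ (L : ℝ) := by
    rw [Real.rpow_natCast]
    exact hL.le.trans (pow_le_pow_left₀ (by norm_num) hH L)
  have h4 : H ^ ((D : ℝ) * C1) + B ≤ H ^ ((D : ℝ) * C1 + L) := by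
    rw [Real.rpow_add hH0]
    calc H ^ ((D : ℝ) * C1) + B ≤ H ^ ((D : ℝ) * C1) * (1 + B) := by nlinarith
      _ ≤ _ := mul_le_mul_of_nonneg_left h3 (by linarith)
  constructor
  · calc Real.exp (-(H ^ ((D : ℝ) * C1 + L))) ≤ Real.exp (Real.log δ) :=
          Real.exp_le_exp.2 (by linarith)
      _ = δ := Real.exp_log hδ
  · rw [h1, le_div_iff₀ hK]
    calc Real.exp (-(H ^ ((D : ℝ) * C1 + L))) * K
        = Real.exp (-(H ^ ((D : ℝ) * C1 + L)) + Real.log K) := by
          rw [Real.exp_add, Real.exp_log hK]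
      _ ≤ _ := Real.exp_le_exp.2 (by linarith)

theorem pf_PAIR (hMSR : T_MSR) (hLIP : T_LIP) (hHGT : T_HGT)
    (hMEAS : Pool.Agent.H51.EI.T_MEAS) (hDSK : Pool.Agent.H51.EI.T_DSK)
    (hKKK : Pool.Agent.H51.EI.T_KKK) (hRPK : Pool.Agent.H51.EI.T_RPK)
    (hFRK : Pool.Agent.H51.EI.T_FRK) : T_PAIR := by
  intro r u v x y E b hr hxy hE hb hbpq
  obtain ⟨O, hO⟩ : ∃ O : Subring ℂ, O = OI KQ := ⟨_, rfl⟩
  have hD : Disc O := by rw [hO]; exact hDSK KQ iq
  have hR : RP O := by rw [hO]; exact hRPK KQ iq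
  have hF : FR O := by rw [hO]; exact hFRK KQ iq
  have hKK : KK O = KQ := by rw [hO]; exact hKKK KQ iq
  have hEc : (E : ℂ) = r * Complex.exp 1 := by
    rw [hE]
    push_cast
    rfl
  have hlin := lin1 hMEAS hD hR hr hEc
  -- the relation
  have hbc : (b : ℂ) * (x * E + y) = 1 + u * E + v * E ^ 2 := by exact_mod_cast hb
  have hden : (x : ℂ) * E + y ≠ 0 := by
    have := hlin y x (hxy.symm)
    rwa [add_comm] at this
  have hxx : ∀ c : ℚ, x * b - v * E ≠ c := by
    intro c hc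
    have h1 : x * b = c + v * E := by linarith
    have h2 : y * b = 1 + (u - c) * E := by
      have : y * b = 1 + u * E + v * E ^ 2 - (x * b) * E := by linarith
      rw [this, h1]
      ring
    by_cases hx : x = 0
    · have hy : (y : ℝ) ≠ 0 := by
        rcases hxy with h | h
        · exact absurd hx h
        · exact_mod_cast h
      refine hbpq (1 / y) ((u - c) / y) ?_
      push_cast
      field_simp
      linarith
    · have hx' : (x : ℝ) ≠ 0 := by exact_mod_cast hx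
      refine hbpq (c / x) (v / x) ?_
      push_cast
      field_simp
      linarith
  have hfx : ∀ m n : ℤ, (m ≠ 0 ∨ n ≠ 0) → (m : ℂ) * 1 + n * ((x : ℂ) * b - v * E) ≠ 0 := by
    intro m n hmn h0
    by_cases hn : n = 0
    · have hm : (m : ℂ) ≠ 0 := by
        rcases hmn with h | h
        · exact_mod_cast h
        · exact absurd hn h
      rw [hn] at h0
      simp at h0
      exact hm (by exact_mod_cast h0)
    · have hn' : (n : ℝ) ≠ 0 := by exact_mod_cast hn
      have h1 : (m : ℝ) * 1 + n * ((x : ℝ) * b - v * E) = 0 := by exact_mod_cast h0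
      refine hxx (-m / n) ?_
      push_cast
      field_simp
      linarith
  have hfy : ∀ m n : ℤ, (m ≠ 0 ∨ n ≠ 0) → (m : ℂ) * 1 + n * (E : ℂ) ≠ 0 := by
    intro m n hmn
    rw [mul_one]
    exact hlin m n hmn
  -- membership
  have heX : Complex.exp 1 ∈ KX O (Complex.exp 1) :=
    Subfield.subset_closure (Set.mem_union_right _ (Set.mem_singleton _))
  have hEX : (E : ℂ) ∈ KX O (Complex.exp 1) := by
    rw [hEc]
    exact (KX O _).mul_mem (SubfieldClass.ratCast_mem _ r) heX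
  have hbX : (b : ℂ) ∈ KX O (Complex.exp 1) := by
    have h1 : (b : ℂ) = (1 + u * E + v * E ^ 2) / (x * E + y) := by
      rw [← hbc, mul_div_cancel_right₀ _ hden]
    rw [h1]
    refine (KX O _).div_mem ?_ ?_
    · exact (KX O _).add_mem ((KX O _).add_mem (KX O _).one_mem
        ((KX O _).mul_mem (intCast_mem _ u) hEX)) ((KX O _).mul_mem (intCast_mem _ v)
          (pow_mem hEX 2))
    · exact (KX O _).add_mem ((KX O _).mul_mem (intCast_mem _ x) hEX) (intCast_mem _ y)
  have hx1X : (x : ℂ) * b - v * E ∈ KX O (Complex.exp 1) :=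
    (KX O _).sub_mem ((KX O _).mul_mem (intCast_mem _ x) hbX)
      ((KX O _).mul_mem (intCast_mem _ v) hEX)
  have h1K : (1 : ℂ) ∈ KK O := (KK O).one_mem
  obtain ⟨C0, hC0⟩ := hMSR O 1 ![1, (x : ℂ) * b - v * E] ![1, (E : ℂ)] hD hF hR h1K one_ne_zero
    (by
      intro i
      fin_cases i
      · exact (KX O _).one_mem
      · exact hx1X)
    (by
      intro i
      fin_cases i
      · exact (KX O _).one_mem
      · exact hEX) hfx hfy
  -- the exponents
  obtain ⟨M, hM⟩ : ∃ M : Fin 2 → Fin 2 → ℤ, M = ![![0, 1], ![-v, u]] := ⟨_, rfl⟩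
  obtain ⟨N, hN⟩ : ∃ N : Fin 2 → Fin 2 → ℤ, N = ![![0, 0], ![x, -y]] := ⟨_, rfl⟩
  have hexp : ∀ i j : Fin 2, Complex.exp ((![1, (x : ℂ) * b - v * E] : Fin 2 → ℂ) i *
      (![1, (E : ℂ)] : Fin 2 → ℂ) j - (if i = j then 1 else 0)) =
      ((Real.exp E ^ M i j * Real.exp b ^ N i j : ℝ) : ℂ) := by
    intro i j
    have h1 : (![1, (x : ℂ) * b - v * E] : Fin 2 → ℂ) i *
        (![1, (E : ℂ)] : Fin 2 → ℂ) j - (if i = j then 1 else 0) =
        (M i j : ℂ) * E + (N i j : ℂ) * b := by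
      rw [hM, hN]
      fin_cases i <;> fin_cases j
      · simp
      · simp
      · simp
        ring
      · simp
        linear_combination hbc
    rw [h1, Complex.exp_add, Complex.exp_int_mul, Complex.exp_int_mul]
    push_cast
    rfl
  choose Kf δf hKf hδf hLip using fun i j : Fin 2 =>
    hLIP (M i j) (N i j) (Real.exp E) (Real.exp b) (Real.exp_pos _) (Real.exp_pos _)
  obtain ⟨K, hK0, hK⟩ : ∃ K : ℝ, 0 < K ∧ ∀ i j, Kf i j ≤ K := by
    refine ⟨∑ i, ∑ j, Kf i j, ?_, fun i j => ?_⟩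
    · exact Finset.sum_pos (fun i _ => Finset.sum_pos (fun j _ => hKf i j) univ_nonempty)
        univ_nonempty
    · exact (Finset.single_le_sum (f := fun j => Kf i j) (fun j _ => (hKf i j).le)
        (mem_univ j)).trans (Finset.single_le_sum (f := fun i => ∑ j, Kf i j)
          (fun i _ => Finset.sum_nonneg fun j _ => (hKf i j).le) (mem_univ i))
  obtain ⟨δ, hδ0, hδ⟩ : ∃ δ : ℝ, 0 < δ ∧ ∀ i j, δ ≤ δf i j := by
    refine ⟨min (min (δf 0 0) (δf 0 1)) (min (δf 1 0) (δf 1 1)),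
      lt_min (lt_min (hδf 0 0) (hδf 0 1)) (lt_min (hδf 1 0) (hδf 1 1)), fun i j => ?_⟩
    fin_cases i <;> fin_cases j
    · exact (min_le_left _ _).trans (min_le_left _ _)
    · exact (min_le_left _ _).trans (min_le_right _ _)
    · exact (min_le_right _ _).trans (min_le_left _ _)
    · exact (min_le_right _ _).trans (min_le_right _ _)
  obtain ⟨D, hD1⟩ : ∃ D : ℕ, ∀ i j, (M i j).natAbs + (N i j).natAbs ≤ D := by
    refine ⟨∑ i, ∑ j, ((M i j).natAbs + (N i j).natAbs), fun i j => ?_⟩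
    exact (Finset.single_le_sum (f := fun j => (M i j).natAbs + (N i j).natAbs)
      (fun j _ => Nat.zero_le _) (mem_univ j)).trans
        (Finset.single_le_sum (f := fun i => ∑ j, ((M i j).natAbs + (N i j).natAbs))
          (fun i _ => Nat.zero_le _) (mem_univ i))
  obtain ⟨C, hC⟩ := final (D + 1) (max C0 0) K δ hK0 hδ0 (le_max_right _ _)
  refine ⟨C, fun H hH Y Z hY1 hY2 hZ1 hZ2 => ?_⟩
  obtain ⟨hCδ, hCK⟩ := hC H hH
  by_cases hcl : |Real.exp E - Y| ≤ δ ∧ |Real.exp b - Z| ≤ δ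
  · obtain ⟨hc1, hc2⟩ := hcl
    have hYZ := hLip 0 0 Y Z (hc1.trans (hδ 0 0)) (hc2.trans (hδ 0 0))
    have hY0 : 0 < Y := by exact_mod_cast hYZ.1
    have hZ0 : 0 < Z := by exact_mod_cast hYZ.2.1
    have hh := fun i j : Fin 2 => hHGT (M i j) (N i j) Y Z H hY0 hZ0
      ((le_abs_self _).trans hY1) hY2 ((le_abs_self _).trans hZ1) hZ2
    choose p q hq0 hpq hp hq using hh
    have hH1 : (1 : ℝ) ≤ H := by linarith
    have hpow : ∀ i j : Fin 2, H ^ ((M i j).natAbs + (N i j).natAbs) ≤ H ^ (D + 1) := fun i j =>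
      pow_le_pow_right₀ hH1 ((hD1 i j).trans (Nat.le_succ _))
    have hH2 : 2 ≤ H ^ (D + 1) := by
      calc (2 : ℝ) ≤ H := hH
        _ = H ^ 1 := (pow_one _).symm
        _ ≤ H ^ (D + 1) := pow_le_pow_right₀ hH1 (by omega)
    obtain ⟨i, j, hij⟩ := hC0 (H ^ (D + 1)) hH2 (fun i j => ((p i j : ℕ) : O))
      (fun i j => ((q i j : ℕ) : O)) (fun i j => by
        refine ⟨?_, ?_, ?_⟩
        · intro h0
          have h1 := congrArg (fun z : O => (z : ℂ)) h0
          simp only [Subring.coe_natCast, ZeroMemClass.coe_zero, Nat.cast_eq_zero] at h1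
          exact (hq0 i j).ne' h1
        · rw [Subring.coe_natCast, Complex.norm_natCast]
          exact (hp i j).trans (hpow i j)
        · rw [Subring.coe_natCast, Complex.norm_natCast]
          exact (hq i j).trans (hpow i j))
    have herr : ‖Complex.exp ((![1, (x : ℂ) * b - v * E] : Fin 2 → ℂ) i *
        (![1, (E : ℂ)] : Fin 2 → ℂ) j - (if i = j then 1 else 0)) -
        (((p i j : ℕ) : O) : ℂ) / (((q i j : ℕ) : O) : ℂ)‖ ≤
        K * (|Real.exp E - Y| + |Real.exp b - Z|) := by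
      have h1 : (((p i j : ℕ) : O) : ℂ) / (((q i j : ℕ) : O) : ℂ) =
          (((Y : ℝ) ^ M i j * (Z : ℝ) ^ N i j : ℝ) : ℂ) := by
        rw [Subring.coe_natCast, Subring.coe_natCast]
        have h2 : ((Y : ℝ) ^ M i j * (Z : ℝ) ^ N i j) = (p i j : ℝ) / (q i j : ℝ) := by
          have h3 := congrArg (fun z : ℚ => (z : ℝ)) (hpq i j)
          push_cast at h3
          exact h3
        rw [h2]
        push_cast
        rfl
      rw [hexp i j, h1, ← Complex.ofReal_sub, Complex.norm_real, Real.norm_eq_abs]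
      refine ((hLip i j Y Z (hc1.trans (hδ i j)) (hc2.trans (hδ i j))).2.2).trans ?_
      exact mul_le_mul_of_nonneg_right (hK i j) (by positivity)
    have h3 : Real.exp (-((H ^ (D + 1)) ^ (max C0 0))) ≤
        K * (|Real.exp E - Y| + |Real.exp b - Z|) := by
      refine le_trans ?_ (hij.trans herr)
      refine Real.exp_le_exp.2 (neg_le_neg ?_)
      exact Real.rpow_le_rpow_of_exponent_le (by linarith) (le_max_left _ _)
    refine hCK.trans ?_
    rw [div_le_iff₀ hK0]
    linarith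
  · refine hCδ.trans ?_
    rw [not_and_or, not_le, not_le] at hcl
    have h1 := abs_nonneg (Real.exp E - (Y : ℝ))
    have h2 := abs_nonneg (Real.exp b - (Z : ℝ))
    rcases hcl with h | h <;> linarith

end Pool.Agent.H69.EM.PAIR
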